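import Mathlib

set_option autoImplicit false

namespace Pool.Agent.Results.MP_30555c_co.TreeProductBelowExpected

open Finset

/-- A loopless multigraph on `V`, given by its symmetric edge multiplicities. -/
structure MGraph (V : Type) where
  /-- number of edges between two vertices -/
  w : V → V → ℕ
  symm : ∀ u v, w u v = w v u
  loopless : ∀ v, w v v = 0

variable {V W : Type}

/-- Any two vertices are joined by a walk. -/
def MGraph.Connected (G : MGraph V) : Prop :=
  Nonempty V ∧ ∀ u v : V, Relation.ReflTransGen (fun a b => 0 < G.w a b) u v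

open Classical in
/-- A simple graph seen as a multigraph. -/
noncomputable def ofSimple (G : SimpleGraph V) : MGraph V where
  w u v := if G.Adj u v then 1 else 0
  symm u v := by simp only [G.adj_comm u v]
  loopless v := by simp

open Classical in
/-- The Cartesian product `G □ H`. -/
noncomputable def MGraph.box (G : MGraph V) (H : MGraph W) : MGraph (V × W) where
  w p q := (if p.2 = q.2 then G.w p.1 q.1 else 0) + (if p.1 = q.1 then H.w p.2 q.2 else 0)
  symm p q := by
    rw [G.symm p.1 q.1, H.symm p.2 q.2]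
    simp only [eq_comm]
  loopless p := by simp [G.loopless, H.loopless]

/-- The Laplacian of `f`. -/
def MGraph.lap [Fintype V] (G : MGraph V) (f : V → ℤ) (v : V) : ℤ :=
  ∑ u, (G.w v u : ℤ) * (f v - f u)

/-- Two divisors are equivalent if they differ by an integer combination of columns of the
Laplacian (firing each vertex `v` exactly `f v` times). -/
def MGraph.Equiv [Fintype V] (G : MGraph V) (D E : V → ℤ) : Prop :=
  ∃ f : V → ℤ, ∀ v, E v = D v - G.lap f v

/-- `D` is effective. -/
def Effective (D : V → ℤ) : Prop := ∀ v, 0 ≤ D v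

open Classical in
/-- `D` minus one chip at `v`. -/
noncomputable def removeChip (D : V → ℤ) (v : V) : V → ℤ :=
  fun u => D u - if u = v then 1 else 0

/-- `D` has positive rank. -/
def MGraph.PosRank [Fintype V] (G : MGraph V) (D : V → ℤ) : Prop :=
  ∀ v, ∃ E : V → ℤ, Effective E ∧ G.Equiv (removeChip D v) E

/-- Divisorial gonality. -/
noncomputable def MGraph.gon [Fintype V] (G : MGraph V) : ℕ :=
  sInf {d : ℕ | ∃ D : V → ℤ, Effective D ∧ G.PosRank D ∧ ∑ v, D v = (d : ℤ)}

lemma MGraph.gon_le [Fintype V] (G : MGraph V) (D : V → ℤ) (d : ℕ) (h1 : Effective D)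
    (h2 : G.PosRank D) (h3 : ∑ v, D v = (d : ℤ)) : G.gon ≤ d :=
  Nat.sInf_le ⟨D, h1, h2, h3⟩

/-- To show positive rank it is enough to exhibit, for each `v`, a firing script `f` after which
`v` has a chip and all other vertices have a nonnegative number of chips. -/
lemma MGraph.posRank_of [Fintype V] (G : MGraph V) (D : V → ℤ)
    (h : ∀ v, ∃ f : V → ℤ, (∀ u, 0 ≤ D u - G.lap f u) ∧ 1 ≤ D v - G.lap f v) : G.PosRank D := by
  classical
  intro v
  obtain ⟨f, h1, h2⟩ := h v
  refine ⟨fun u => removeChip D v u - G.lap f u, ?_, f, fun u => rfl⟩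
  intro u
  unfold removeChip
  by_cases huv : u = v
  · subst huv
    simp only [if_true]
    linarith
  · simp only [huv, if_false]
    have := h1 u
    linarith

lemma lap_box [Fintype V] [Fintype W] (G : MGraph V) (H : MGraph W) (f : V × W → ℤ)
    (p : V × W) : (G.box H).lap f p =
      G.lap (fun s => f (s, p.2)) p.1 + H.lap (fun h => f (p.1, h)) p.2 := by
  classical
  obtain ⟨a, b⟩ := p
  unfold MGraph.lap MGraph.box
  simp only [Fintype.sum_prod_type]
  push_cast
  simp only [add_mul, Finset.sum_add_distrib, ite_mul, zero_mul]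
  congr 1
  · apply Finset.sum_congr rfl
    intro x _
    simp
  · rw [Finset.sum_comm]
    apply Finset.sum_congr rfl
    intro x _
    simp

/-! ### The two factors -/

/-- The star with `n` leaves. -/
def star (n : ℕ) : SimpleGraph (Option (Fin n)) := SimpleGraph.starGraph none

/-- Edge multiplicities of the second factor: `0 = 1` doubled, `1 - 2` simple, and `L` pendant
vertices at `2`. -/
def brW (L : ℕ) : Fin 3 ⊕ Fin L → Fin 3 ⊕ Fin L → ℕ
  | Sum.inl 0, Sum.inl 1 => 2
  | Sum.inl 1, Sum.inl 0 => 2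
  | Sum.inl 1, Sum.inl 2 => 1
  | Sum.inl 2, Sum.inl 1 => 1
  | Sum.inl 2, Sum.inr _ => 1
  | Sum.inr _, Sum.inl 2 => 1
  | _, _ => 0

/-- The second factor. -/
def br (L : ℕ) : MGraph (Fin 3 ⊕ Fin L) where
  w := brW L
  symm u v := by
    rcases u with u | u <;> rcases v with v | v
    · fin_cases u <;> fin_cases v <;> rfl
    · fin_cases u <;> rfl
    · fin_cases v <;> rfl
    · rfl
  loopless v := by
    rcases v with v | v
    · fin_cases v <;> rfl
    · rfl

lemma br_lap (L : ℕ) (f : Fin 3 ⊕ Fin L → ℤ) (v : Fin 3 ⊕ Fin L) :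
    (br L).lap f v = match v with
      | Sum.inl 0 => 2 * (f (Sum.inl 0) - f (Sum.inl 1))
      | Sum.inl 1 => 2 * (f (Sum.inl 1) - f (Sum.inl 0)) + (f (Sum.inl 1) - f (Sum.inl 2))
      | Sum.inl 2 => (f (Sum.inl 2) - f (Sum.inl 1)) + ∑ i : Fin L, (f (Sum.inl 2) - f (Sum.inr i))
      | Sum.inr i => f (Sum.inr i) - f (Sum.inl 2) := by
  unfold MGraph.lap br
  rcases v with v | v
  · fin_cases v <;> simp [Fintype.sum_sum_type, Fin.sum_univ_three, brW]
  · simp [Fintype.sum_sum_type, Fin.sum_univ_three, brW]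

lemma star_lap (n : ℕ) (f : Option (Fin n) → ℤ) (v : Option (Fin n)) :
    (ofSimple (star n)).lap f v = match v with
      | none => ∑ i : Fin n, (f none - f (some i))
      | some i => f (some i) - f none := by
  unfold MGraph.lap ofSimple star
  rcases v with _ | v
  · simp [Fintype.sum_option]
  · simp [Fintype.sum_option]

/-- The divisor on the product: one chip on the copies of `0, 1` over the centre of the star,
and one chip on every copy of `1`. -/
def D0 (n L : ℕ) : Option (Fin n) × (Fin 3 ⊕ Fin L) → ℤ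
  | (none, Sum.inl 0) => 1
  | (none, Sum.inl 1) => 2
  | (some _, Sum.inl 1) => 1
  | _ => 0

lemma D0_sum (n L : ℕ) : ∑ v, D0 n L v = ((n + 3 : ℕ) : ℤ) := by
  simp only [Fintype.sum_prod_type, Fintype.sum_option, Fintype.sum_sum_type,
    Fin.sum_univ_three, D0]
  simp
  ring

lemma D0_effective (n L : ℕ) : Effective (D0 n L) := by
  rintro ⟨s, h⟩
  rcases s with _ | s <;> rcases h with h | h
  · fin_cases h <;> simp [D0]
  · simp [D0]
  · fin_cases h <;> simp [D0]
  · simp [D0]

/-- Script moving the chips over the centre to the leaf `i`. -/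
def scrA (n L : ℕ) (i : Fin n) : Option (Fin n) × (Fin 3 ⊕ Fin L) → ℤ
  | (none, Sum.inl 0) => 1
  | (none, Sum.inl 1) => 1
  | (some j, Sum.inl 0) => if j = i then 0 else 1
  | (some j, Sum.inl 1) => if j = i then 0 else 1
  | _ => 0

/-- Script moving the wall from `1` to `2`. -/
def scrB (L : ℕ) : Fin 3 ⊕ Fin L → ℤ
  | Sum.inl 0 => 1
  | Sum.inl 1 => 1
  | _ => 0

/-- Script moving the wall from `1` to the pendant vertex `i`. -/
def scrC (L : ℕ) (i : Fin L) : Fin 3 ⊕ Fin L → ℤ
  | Sum.inl 0 => 2
  | Sum.inl 1 => 2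
  | Sum.inl 2 => 1
  | Sum.inr j => if j = i then 0 else 1

lemma sum_ite_zero_one {n : ℕ} (i : Fin n) :
    ∑ j : Fin n, (if j = i then (0 : ℤ) else 1) = n - 1 := by
  have : ∀ j : Fin n, (if j = i then (0 : ℤ) else 1) = 1 - if j = i then 1 else 0 := by
    intro j; split_ifs <;> simp
  simp [this]

lemma lap_scrA (n L : ℕ) (i : Fin n) (p : Option (Fin n) × (Fin 3 ⊕ Fin L)) :
    ((ofSimple (star n)).box (br L)).lap (scrA n L i) p = match p with
      | (none, Sum.inl 0) => 1
      | (none, Sum.inl 1) => 2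
      | (some j, Sum.inl 0) => if j = i then -1 else 0
      | (some j, Sum.inl 1) => if j = i then -1 else 1
      | (none, Sum.inl 2) => -1
      | (some j, Sum.inl 2) => if j = i then 0 else -1
      | (_, Sum.inr _) => 0 := by
  rw [lap_box, star_lap, br_lap]
  obtain ⟨s, h⟩ := p
  rcases s with _ | s <;> rcases h with h | h
  · fin_cases h <;> simp [scrA, sum_ite_zero_one]
  · simp [scrA]
  · fin_cases h <;> simp [scrA] <;> split_ifs <;> simp
  · simp [scrA]

lemma lap_scrB (n L : ℕ) (p : Option (Fin n) × (Fin 3 ⊕ Fin L)) :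
    ((ofSimple (star n)).box (br L)).lap (fun q => scrB L q.2) p = match p.2 with
      | Sum.inl 0 => 0
      | Sum.inl 1 => 1
      | Sum.inl 2 => -1
      | Sum.inr _ => 0 := by
  rw [lap_box, star_lap, br_lap]
  obtain ⟨s, h⟩ := p
  rcases s with _ | s <;> rcases h with h | h
  · fin_cases h <;> simp [scrB]
  · simp [scrB]
  · fin_cases h <;> simp [scrB]
  · simp [scrB]

lemma lap_scrC (n L : ℕ) (i : Fin L) (p : Option (Fin n) × (Fin 3 ⊕ Fin L)) :
    ((ofSimple (star n)).box (br L)).lap (fun q => scrC L i q.2) p = match p.2 with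
      | Sum.inl 0 => 0
      | Sum.inl 1 => 1
      | Sum.inl 2 => 0
      | Sum.inr j => if j = i then -1 else 0 := by
  rw [lap_box, star_lap, br_lap]
  obtain ⟨s, h⟩ := p
  rcases s with _ | s <;> rcases h with h | h
  · fin_cases h <;> simp [scrC, sum_ite_zero_one]
  · simp [scrC]; split_ifs <;> simp
  · fin_cases h <;> simp [scrC, sum_ite_zero_one]
  · simp [scrC]; split_ifs <;> simp

lemma D0_posRank (n L : ℕ) : ((ofSimple (star n)).box (br L)).PosRank (D0 n L) := by
  apply MGraph.posRank_of
  rintro ⟨s, h⟩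
  have hzero : 1 ≤ D0 n L (s, h) → ∃ f : Option (Fin n) × (Fin 3 ⊕ Fin L) → ℤ,
      (∀ u, 0 ≤ D0 n L u - ((ofSimple (star n)).box (br L)).lap f u) ∧
      1 ≤ D0 n L (s, h) - ((ofSimple (star n)).box (br L)).lap f (s, h) := by
    intro h1
    refine ⟨fun _ => 0, fun u => ?_, ?_⟩
    · simpa [MGraph.lap] using D0_effective n L u
    · simpa [MGraph.lap] using h1
  rcases h with h | h
  · fin_cases h
    · rcases s with _ | i
      · exact hzero (by simp [D0])
      · refine ⟨scrA n L i, ?_, ?_⟩
        · rintro ⟨s, h⟩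
          rw [lap_scrA]
          rcases s with _ | s <;> rcases h with h | h
          · fin_cases h <;> simp [D0]
          · simp [D0]
          · fin_cases h <;> simp [D0] <;> split_ifs <;> simp
          · simp [D0]
        · rw [lap_scrA]
          simp [D0]
    · exact hzero (by rcases s with _ | i <;> simp [D0])
    · refine ⟨fun q => scrB L q.2, ?_, ?_⟩
      · rintro ⟨s, h⟩
        rw [lap_scrB]
        rcases s with _ | s <;> rcases h with h | h
        · fin_cases h <;> simp [D0]
        · simp [D0]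
        · fin_cases h <;> simp [D0]
        · simp [D0]
      · rw [lap_scrB]
        rcases s with _ | s <;> simp [D0]
  · refine ⟨fun q => scrC L h q.2, ?_, ?_⟩
    · rintro ⟨s, k⟩
      rw [lap_scrC]
      rcases s with _ | s <;> rcases k with k | k
      · fin_cases k <;> simp [D0]
      · simp [D0]; split_ifs <;> simp
      · fin_cases k <;> simp [D0]
      · simp [D0]; split_ifs <;> simp
    · rw [lap_scrC]
      rcases s with _ | s <;> simp [D0]

lemma gon_box_le (n L : ℕ) : ((ofSimple (star n)).box (br L)).gon ≤ n + 3 :=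
  MGraph.gon_le _ (D0 n L) _ (D0_effective n L) (D0_posRank n L) (D0_sum n L)

/-! ### The gonality of the second factor -/

/-- A positive rank divisor of degree two on the second factor. -/
def E0 (L : ℕ) : Fin 3 ⊕ Fin L → ℤ
  | Sum.inl 0 => 1
  | Sum.inl 1 => 1
  | _ => 0

lemma E0_effective (L : ℕ) : Effective (E0 L) := by
  intro h
  rcases h with h | h
  · fin_cases h <;> simp [E0]
  · simp [E0]

lemma E0_posRank (L : ℕ) : (br L).PosRank (E0 L) := by
  apply MGraph.posRank_of
  intro h
  have hzero : 1 ≤ E0 L h → ∃ f : Fin 3 ⊕ Fin L → ℤ,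
      (∀ u, 0 ≤ E0 L u - (br L).lap f u) ∧ 1 ≤ E0 L h - (br L).lap f h := by
    intro h1
    refine ⟨fun _ => 0, fun u => ?_, ?_⟩
    · simpa [MGraph.lap] using E0_effective L u
    · simpa [MGraph.lap] using h1
  rcases h with h | h
  · fin_cases h
    · exact hzero (by simp [E0])
    · exact hzero (by simp [E0])
    · refine ⟨scrB L, ?_, ?_⟩
      · intro h
        rw [br_lap]
        rcases h with h | h
        · fin_cases h <;> simp [E0, scrB]
        · simp [E0, scrB]
      · rw [br_lap]
        simp [E0, scrB]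
  · refine ⟨scrC L h, ?_, ?_⟩
    · intro k
      rw [br_lap]
      rcases k with k | k
      · fin_cases k <;> simp [E0, scrC, sum_ite_zero_one]
      · simp [E0, scrC]; split_ifs <;> simp
    · rw [br_lap]
      simp [E0, scrC]

lemma sum_lap [Fintype V] (G : MGraph V) (f : V → ℤ) : ∑ v, G.lap f v = 0 := by
  have h1 : ∑ v, G.lap f v = ∑ v, ∑ u, (G.w v u : ℤ) * f v - ∑ v, ∑ u, (G.w v u : ℤ) * f u := by
    rw [← Finset.sum_sub_distrib]
    apply Finset.sum_congr rfl
    intro v _
    rw [← Finset.sum_sub_distrib]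
    apply Finset.sum_congr rfl
    intro u _
    ring
  have h2 : ∑ v, ∑ u, (G.w v u : ℤ) * f u = ∑ v, ∑ u, (G.w v u : ℤ) * f v := by
    rw [Finset.sum_comm]
    apply Finset.sum_congr rfl
    intro v _
    apply Finset.sum_congr rfl
    intro u _
    rw [G.symm]
  rw [h1, h2, sub_self]

lemma sum_removeChip [Fintype V] (D : V → ℤ) (v : V) :
    ∑ u, removeChip D v u = ∑ u, D u - 1 := by
  classical
  unfold removeChip
  rw [Finset.sum_sub_distrib]
  simp

lemma two_le_gon_br (L : ℕ) : 2 ≤ (br L).gon := by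
  have hne : {d : ℕ | ∃ D : Fin 3 ⊕ Fin L → ℤ, Effective D ∧ (br L).PosRank D ∧
      ∑ v, D v = (d : ℤ)}.Nonempty :=
    ⟨2, E0 L, E0_effective L, E0_posRank L, by simp [Fintype.sum_sum_type, Fin.sum_univ_three, E0]⟩
  refine le_csInf hne ?_
  rintro d ⟨D, hD, hr, hd⟩
  by_contra hlt
  -- for every `v` the divisor `D - 1_v` is equivalent to `0`
  have key : ∀ v : Fin 3 ⊕ Fin L, ∃ f : Fin 3 ⊕ Fin L → ℤ,
      ∀ u, removeChip D v u = (br L).lap f u := by
    intro v
    obtain ⟨E, hE, f, hf⟩ := hr v
    refine ⟨f, ?_⟩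
    have hsumE : ∑ u, E u = (d : ℤ) - 1 := by
      calc ∑ u, E u = ∑ u, (removeChip D v u - (br L).lap f u) :=
            Finset.sum_congr rfl (fun u _ => hf u)
        _ = (d : ℤ) - 1 := by
            rw [Finset.sum_sub_distrib, sum_lap, sum_removeChip, hd, sub_zero]
    have hE0 : ∀ u, E u = 0 := by
      have h0 : ∑ u, E u = 0 := by
        have h1 : 0 ≤ ∑ u, E u := Finset.sum_nonneg (fun u _ => hE u)
        omega
      intro u
      exact (Finset.sum_eq_zero_iff_of_nonneg (fun u _ => hE u)).mp h0 u (Finset.mem_univ u)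
    intro u
    have := hf u
    rw [hE0 u] at this
    linarith
  obtain ⟨f, hf⟩ := key (Sum.inl 0)
  obtain ⟨g, hg⟩ := key (Sum.inl 1)
  have h1 := hf (Sum.inl 0)
  have h2 := hg (Sum.inl 0)
  rw [br_lap] at h1 h2
  simp [removeChip] at h1 h2
  omega

lemma gon_br (L : ℕ) : (br L).gon = 2 := by
  apply le_antisymm
  · exact MGraph.gon_le _ (E0 L) 2 (E0_effective L) (E0_posRank L)
      (by simp [Fintype.sum_sum_type, Fin.sum_univ_three, E0])
  · exact two_le_gon_br L

lemma br_connected (L : ℕ) : (br L).Connected := by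
  refine ⟨⟨Sum.inl 0⟩, ?_⟩
  set R : Fin 3 ⊕ Fin L → Fin 3 ⊕ Fin L → Prop := fun a b => 0 < (br L).w a b with hR
  have hsymm : ∀ a b, R a b → R b a := by
    intro a b hab
    simp only [hR] at hab ⊢
    rwa [(br L).symm]
  have h01 : R (Sum.inl 0) (Sum.inl 1) := by simp [hR, br, brW]
  have h12 : R (Sum.inl 1) (Sum.inl 2) := by simp [hR, br, brW]
  have h2i : ∀ i, R (Sum.inl 2) (Sum.inr i) := by intro i; simp [hR, br, brW]
  -- everything is reachable from `2` and conversely
  have hto : ∀ v, Relation.ReflTransGen R (Sum.inl 2) v := by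
    intro v
    rcases v with v | v
    · fin_cases v
      · exact (Relation.ReflTransGen.single (hsymm _ _ h12)).tail (hsymm _ _ h01)
      · exact Relation.ReflTransGen.single (hsymm _ _ h12)
      · exact Relation.ReflTransGen.refl
    · exact Relation.ReflTransGen.single (h2i v)
  have hfrom : ∀ v, Relation.ReflTransGen R v (Sum.inl 2) := by
    intro v
    rcases v with v | v
    · fin_cases v
      · exact (Relation.ReflTransGen.single h01).tail h12
      · exact Relation.ReflTransGen.single h12
      · exact Relation.ReflTransGen.refl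
    · exact Relation.ReflTransGen.single (hsymm _ _ (h2i v))
  intro u v
  exact (hfrom u).trans (hto v)

/-- For every `t ≥ 3` there are a tree `T` on `t` vertices and a connected multigraph `H` of
gonality `2` on `2 t` vertices with `gon (T □ H) ≤ t + 2`, while the expected gonality
`min |V(H)| (|V(T)| * gon H)` equals `2 t`. In particular the product has gonality different
from (and, as `t` grows, about half of) the expected one. -/
theorem result (t : ℕ) (ht : 3 ≤ t) :
    ∃ (V W : Type) (_ : Fintype V) (_ : Fintype W) (T : SimpleGraph V) (H : MGraph W),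
      T.IsTree ∧ H.Connected ∧ Fintype.card V = t ∧ Fintype.card W = 2 * t ∧ H.gon = 2 ∧
      min (Fintype.card W) (Fintype.card V * H.gon) = 2 * t ∧
      ((ofSimple T).box H).gon ≤ t + 2 ∧
      ((ofSimple T).box H).gon ≠ min (Fintype.card W) (Fintype.card V * H.gon) := by
  obtain ⟨m, rfl⟩ : ∃ m, t = m + 3 := ⟨t - 3, by omega⟩
  have hV : Fintype.card (Option (Fin (m + 2))) = m + 3 := by simp
  have hW : Fintype.card (Fin 3 ⊕ Fin (2 * m + 3)) = 2 * (m + 3) := by
    simp; ring
  have hgon := gon_br (2 * m + 3)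
  have hmin : min (Fintype.card (Fin 3 ⊕ Fin (2 * m + 3)))
      (Fintype.card (Option (Fin (m + 2))) * (br (2 * m + 3)).gon) = 2 * (m + 3) := by
    rw [hV, hW, hgon, mul_comm (m + 3) 2, min_self]
  have hle := gon_box_le (m + 2) (2 * m + 3)
  refine ⟨Option (Fin (m + 2)), Fin 3 ⊕ Fin (2 * m + 3), inferInstance, inferInstance,
    star (m + 2), br (2 * m + 3), SimpleGraph.isTree_starGraph _, br_connected _, hV, hW, hgon,
    hmin, ?_, ?_⟩
  · exact hle.trans (by omega)
  · rw [hmin]
    intro h
    rw [h] at hle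
    omega

end Pool.Agent.Results.MP_30555c_co.TreeProductBelowExpected
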